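import Pool.Agent.U456.HP.Lower

set_option autoImplicit false

/-!
A necessary condition: every `α` which is good for `t` is larger than `1 - 1/(2t)`; in particular the
value `1 - 1/(2t)` itself is not good.

For `k = t q` and `n = 2 (k + q + 1)` delete from `C_n^k` all edges inside two intervals of `q + 1`
vertices which are separated by gaps of `k` vertices. Every vertex loses at most `q = k / t` of its
`2 k` edges, and the vertices of the intervals form an independent set with more than `n / (t + 1)`
elements, while the `t`-th power of a Hamilton cycle has no such set.
-/

namespace Pool.Agent.Results.MP_61e9ba_co.ThresholdLower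

open Pool.Agent.TH742.HP

/-- Every `α` which is good for `t` is larger than `1 - 1/(2t)`. -/
theorem result : ∀ t : ℕ, 1 ≤ t → ∀ α : ℝ, Good t α → 1 - 1 / (2 * (t : ℝ)) < α :=
  fun t ht α h => Pool.Agent.U456.HP.lower t ht α h

end Pool.Agent.Results.MP_61e9ba_co.ThresholdLower
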